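import Mathlib
import Pool.Agent.H598R2.Core
import Pool.Agent.H598R2.Collapse

/-!
# Minimum edge cuts destroying planar rigidity: NP-hardness

For graphs that are rigid in the plane, computing the minimum number `c(G)` of edges whose deletion
destroys rigidity (the minimum size of a cocircuit of the 2-dimensional rigidity matroid) is
NP-hard.  The reduction is from the clique problem.

Complexity notions are those of `Pool.Agent.NPC.Defs`: polynomial time is Mathlib's
`Turing.TM2ComputableInPolyTime` on bit strings, `NP` is defined by certificates, hardness is under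
polynomial-time many-one reductions, and data (numbers in binary, pairs, lists) are coded by
bit strings (`bits`).
-/

namespace Pool.Agent.Results.MP_e057e5_lc.NPHardCut

open Pool.Agent.NPC

/-- A graph: the number `n` of vertices, which are `0, …, n-1`, and the list of the edges, each
given by its two endpoints.  The same pair can occur several times in the list (parallel
edges). -/
abbrev Graph : Type := ℕ × List (ℕ × ℕ)

/-- `G` is a finite loopless graph with at least two vertices (parallel edges are allowed). -/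
def IsGraph (G : Graph) : Prop := 2 ≤ G.1 ∧ ∀ e ∈ G.2, e.1 < G.1 ∧ e.2 < G.1 ∧ e.1 ≠ e.2

/-- `G` has no parallel edges. -/
def IsSimple (G : Graph) : Prop := (G.2.map (fun e => s(e.1, e.2))).Nodup

/-- Sets of edges of `G`: edges are identified with their positions in the list. -/
abbrev EdgeSet (G : Graph) : Type := Finset (Fin G.2.length)

/-- The set `V(F)` of the endpoints of the edges in `F`. -/
def ends (G : Graph) (F : EdgeSet G) : Finset ℕ :=
  F.biUnion (fun i => {(G.2.get i).1, (G.2.get i).2})

/-- Independence in the 2-dimensional rigidity matroid: `|F'| ≤ 2|V(F')| - 3` for all nonempty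
`F' ⊆ F`. -/
def Indep (G : Graph) (F : EdgeSet G) : Prop :=
  ∀ F' ⊆ F, F'.Nonempty → F'.card + 3 ≤ 2 * (ends G F').card

/-- The rank of a set of edges in the 2-dimensional rigidity matroid: the largest cardinality of
an independent subset. -/
noncomputable def rk (G : Graph) (A : EdgeSet G) : ℕ := sSup {m | ∃ F ⊆ A, Indep G F ∧ F.card = m}

/-- `G - F` is rigid in the plane (by Laman's theorem): its 2-dimensional rigidity matroid has rank
`2n - 3`. -/
def RigidMinus (G : Graph) (F : EdgeSet G) : Prop := rk G Fᶜ = 2 * G.1 - 3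

/-- `G` is rigid in the plane. -/
def Rigid (G : Graph) : Prop := RigidMinus G ∅

/-- `c(G)`: the minimum number of edges whose deletion destroys rigidity. -/
noncomputable def c (G : Graph) : ℕ := sInf {m | ∃ F : EdgeSet G, F.card = m ∧ ¬ RigidMinus G F}

/-! ### Proof -/

open Pool.Agent.H598R2.Cnt (Sp Rig ins Pairs)
open Pool.Agent.NPC.H598R2 (PS Simp hardPr_core collapse_fun)

/-- the pair of an edge -/
def pe (G : Graph) (i : Fin G.2.length) : Finset ℕ := {(G.2.get i).1, (G.2.get i).2}

theorem ends_eq (G : Graph) (F : EdgeSet G) : ends G F = F.biUnion (pe G) := rfl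

theorem pe_card {G : Graph} (hG : IsGraph G) (i : Fin G.2.length) : (pe G i).card = 2 :=
  Finset.card_pair (hG.2 _ (List.get_mem _ _)).2.2

theorem pe_subset {G : Graph} (hG : IsGraph G) (i : Fin G.2.length) :
    pe G i ⊆ Finset.range G.1 := by
  intro x hx
  have h := hG.2 _ (List.get_mem G.2 i)
  simp only [pe, Finset.mem_insert, Finset.mem_singleton] at hx
  rw [Finset.mem_range]
  rcases hx with rfl | rfl
  · exact h.1
  · exact h.2.1

theorem indep_card {G : Graph} (hG : IsGraph G) {F : EdgeSet G} (h : Indep G F) :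
    F.card + 3 ≤ 2 * G.1 := by
  rcases F.eq_empty_or_nonempty with rfl | hF
  · have := hG.1
    rw [Finset.card_empty]
    omega
  · have h1 := h F subset_rfl hF
    have h2 : (ends G F).card ≤ G.1 := by
      have : ends G F ⊆ Finset.range G.1 := by
        rw [ends_eq]
        exact Finset.biUnion_subset.2 fun i _ => pe_subset hG i
      simpa using Finset.card_le_card this
    omega

theorem rigidMinus_iff {G : Graph} (hG : IsGraph G) (F : EdgeSet G) :
    RigidMinus G F ↔ ∃ J ⊆ Fᶜ, Indep G J ∧ J.card + 3 = 2 * G.1 := by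
  have hn := hG.1
  have hne : {m | ∃ J ⊆ Fᶜ, Indep G J ∧ J.card = m}.Nonempty :=
    ⟨0, ∅, by simp, fun F' hF' h => absurd (Finset.subset_empty.1 hF') h.ne_empty, rfl⟩
  have hbd : BddAbove {m | ∃ J ⊆ Fᶜ, Indep G J ∧ J.card = m} := by
    refine ⟨2 * G.1, ?_⟩
    rintro m ⟨J, _, hJ, rfl⟩
    have := indep_card hG hJ
    omega
  constructor
  · intro h
    obtain ⟨J, hJ, hi, hc⟩ := Nat.sSup_mem hne hbd
    have h2 : J.card = 2 * G.1 - 3 := hc.trans h
    exact ⟨J, hJ, hi, by omega⟩
  · rintro ⟨J, hJ, hi, hc⟩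
    apply le_antisymm
    · apply csSup_le hne
      rintro m ⟨J', _, hJ', rfl⟩
      have := indep_card hG hJ'
      omega
    · have := le_csSup hbd ⟨J, hJ, hi, rfl⟩
      change 2 * G.1 - 3 ≤ rk G Fᶜ
      unfold rk
      omega

theorem not_rigidMinus_univ {G : Graph} (hG : IsGraph G) : ¬ RigidMinus G Finset.univ := by
  have hn := hG.1
  rw [rigidMinus_iff hG]
  rintro ⟨J, hJ, _, hc⟩
  rw [Finset.compl_univ, Finset.subset_empty] at hJ
  rw [hJ, Finset.card_empty] at hc
  omega

theorem c_le_iff {G : Graph} (hG : IsGraph G) (s : ℕ) :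
    c G ≤ s ↔ ∃ F : EdgeSet G, F.card ≤ s ∧ ¬ RigidMinus G F := by
  constructor
  · intro h
    have hne : {m | ∃ F : EdgeSet G, F.card = m ∧ ¬ RigidMinus G F}.Nonempty :=
      ⟨_, Finset.univ, rfl, not_rigidMinus_univ hG⟩
    obtain ⟨F, hF, hR⟩ := Nat.sInf_mem hne
    exact ⟨F, hF.le.trans h, hR⟩
  · rintro ⟨F, hF, hR⟩
    have h : c G ≤ F.card := Nat.sInf_le (s := {m | ∃ F : EdgeSet G, F.card = m ∧
      ¬ RigidMinus G F}) ⟨F, rfl, hR⟩
    exact h.trans hF

section

variable {G : Graph} (hG : IsGraph G) (hinj : Function.Injective (pe G))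

include hinj in
theorem ins_image (F : EdgeSet G) (X : Finset ℕ) :
    ins (F.image (pe G)) X = (F.filter (fun i => pe G i ⊆ X)).card := by
  unfold ins
  rw [Finset.filter_image, Finset.card_image_of_injective _ hinj]

include hG hinj in
theorem sp_iff (F : EdgeSet G) : Sp (F.image (pe G)) ↔ Indep G F := by
  constructor
  · intro h F' hF' hne
    obtain ⟨i, hi⟩ := hne
    have h1 : pe G i ⊆ ends G F' := Finset.subset_biUnion_of_mem (pe G) hi
    have h2 : 2 ≤ (ends G F').card := by
      rw [← pe_card hG i]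
      exact Finset.card_le_card h1
    have h3 := h (ends G F') h2
    rw [ins_image hinj] at h3
    have h4 : F'.card ≤ (F.filter (fun i => pe G i ⊆ ends G F')).card :=
      Finset.card_le_card fun j hj => Finset.mem_filter.2
        ⟨hF' hj, Finset.subset_biUnion_of_mem (pe G) hj⟩
    omega
  · intro h X hX
    rw [ins_image hinj]
    rcases (F.filter (fun i => pe G i ⊆ X)).eq_empty_or_nonempty with he | hne
    · rw [he, Finset.card_empty]
      omega
    · have h1 := h _ (Finset.filter_subset _ _) hne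
      have h2 : (ends G (F.filter (fun i => pe G i ⊆ X))).card ≤ X.card := by
        apply Finset.card_le_card
        rw [ends_eq]
        exact Finset.biUnion_subset.2 fun i hi => (Finset.mem_filter.1 hi).2
      omega

theorem ps_eq : PS G.2 = Finset.univ.image (pe G) := by
  ext p
  simp only [PS, List.mem_toFinset, List.mem_map, Finset.mem_image, Finset.mem_univ, true_and]
  constructor
  · rintro ⟨e, he, rfl⟩
    obtain ⟨i, rfl⟩ := List.get_of_mem he
    exact ⟨i, rfl⟩
  · rintro ⟨i, rfl⟩
    exact ⟨_, List.get_mem _ _, rfl⟩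

include hG hinj in
theorem rig_iff (F : EdgeSet G) :
    Rig (PS G.2 \ F.image (pe G)) (Finset.range G.1) ↔ RigidMinus G F := by
  classical
  rw [rigidMinus_iff hG]
  constructor
  · rintro ⟨I, hI, hS, _, hc⟩
    have h1 : (Finset.univ.filter (fun i => pe G i ∈ I)).image (pe G) = I := by
      ext p
      simp only [Finset.mem_image, Finset.mem_filter, Finset.mem_univ, true_and]
      constructor
      · rintro ⟨i, hi, rfl⟩; exact hi
      · intro hp
        have := (Finset.mem_sdiff.1 (hI hp)).1
        rw [ps_eq, Finset.mem_image] at this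
        obtain ⟨i, _, rfl⟩ := this
        exact ⟨i, hp, rfl⟩
    refine ⟨Finset.univ.filter (fun i => pe G i ∈ I), ?_, ?_, ?_⟩
    · intro i hi
      rw [Finset.mem_compl]
      intro hiF
      exact (Finset.mem_sdiff.1 (hI (Finset.mem_filter.1 hi).2)).2
        (Finset.mem_image_of_mem _ hiF)
    · rw [← sp_iff hG hinj, h1]; exact hS
    · rw [← Finset.card_image_of_injective _ hinj, h1, hc, Finset.card_range]
  · rintro ⟨J, hJ, hi, hc⟩
    refine ⟨J.image (pe G), ?_, (sp_iff hG hinj J).2 hi, ?_, ?_⟩
    · intro p hp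
      obtain ⟨i, hiJ, rfl⟩ := Finset.mem_image.1 hp
      rw [Finset.mem_sdiff, ps_eq]
      refine ⟨Finset.mem_image_of_mem _ (Finset.mem_univ _), ?_⟩
      intro h
      obtain ⟨j, hj, hji⟩ := Finset.mem_image.1 h
      rw [hinj hji] at hj
      exact (Finset.mem_compl.1 (hJ hiJ)) hj
    · intro p hp
      obtain ⟨i, _, rfl⟩ := Finset.mem_image.1 hp
      exact pe_subset hG i
    · rw [Finset.card_image_of_injective _ hinj, hc, Finset.card_range]

include hG hinj in
theorem cut_iff (s : ℕ) : (∃ F ⊆ PS G.2, F.card ≤ s ∧ ¬ Rig (PS G.2 \ F) (Finset.range G.1)) ↔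
    c G ≤ s := by
  classical
  rw [c_le_iff hG]
  constructor
  · rintro ⟨F, hF, hc, hR⟩
    rw [ps_eq] at hF
    obtain ⟨F', _, rfl⟩ := Finset.subset_image_iff.1 hF
    rw [Finset.card_image_of_injective _ hinj] at hc
    exact ⟨F', hc, fun h => hR ((rig_iff hG hinj F').2 h)⟩
  · rintro ⟨F, hc, hR⟩
    refine ⟨F.image (pe G), ?_, Finset.card_image_le.trans hc,
      fun h => hR ((rig_iff hG hinj F).1 h)⟩
    rw [ps_eq]
    exact Finset.image_subset_image (Finset.subset_univ _)

end

theorem isGraph_of_simp {G : Graph} (h : Simp G.1 G.2) : IsGraph G := by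
  refine ⟨h.1, fun e he => ?_⟩
  have := h.2.1 e he
  exact ⟨this.1.trans this.2, this.2, this.1.ne⟩

theorem isSimple_of_simp {G : Graph} (h : Simp G.1 G.2) : IsSimple G := by
  refine List.Nodup.map_on ?_ h.2.2
  rintro ⟨i, j⟩ h1 ⟨i', j'⟩ h2 heq
  have h3 := (h.2.1 _ h1).1
  have h4 := (h.2.1 _ h2).1
  simp only [Sym2.eq_iff] at heq h3 h4
  rcases heq with ⟨rfl, rfl⟩ | ⟨rfl, rfl⟩
  · rfl
  · omega

theorem pe_injective_of_simp {G : Graph} (h : Simp G.1 G.2) : Function.Injective (pe G) := by
  intro i j hij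
  have h1 := (h.2.1 _ (List.get_mem G.2 i)).1
  have h2 := (h.2.1 _ (List.get_mem G.2 j)).1
  have h3 : (G.2.get i).1 ∈ pe G j := hij ▸ (by simp [pe])
  have h4 : (G.2.get i).2 ∈ pe G j := hij ▸ (by simp [pe])
  simp only [pe, Finset.mem_insert, Finset.mem_singleton] at h3 h4
  have h5 : G.2.get i = G.2.get j := by
    apply Prod.ext <;> omega
  exact (List.Nodup.get_inj_iff h.2.2).1 h5

/-- The instances `(G, s)` with a rigid graph without parallel edges. -/
theorem hardPr_simple : HardPr
    (fun I : Graph × ℕ => IsGraph I.1 ∧ IsSimple I.1 ∧ Rigid I.1) (fun I => c I.1 ≤ I.2) := by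
  intro L hL
  obtain ⟨f, hf, hpr, hfL⟩ := hardPr_core L hL
  refine ⟨f, hf, fun x => ?_, fun x => ?_⟩
  · obtain ⟨h1, h2⟩ := hpr x
    have hG := isGraph_of_simp h1
    refine ⟨hG, isSimple_of_simp h1, ?_⟩
    have h3 := rig_iff hG (pe_injective_of_simp h1) ∅
    rw [Finset.image_empty, Finset.sdiff_empty] at h3
    exact h3.1 h2
  · obtain ⟨h1, h2⟩ := hpr x
    rw [hfL x]
    exact cut_iff (isGraph_of_simp h1) (pe_injective_of_simp h1) _

/-- **Computing `c(G)` is NP-hard.**

(i) The decision problem whether `c(G) ≤ s`, for graphs `G` that are rigid in the plane and numbers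
`s`, is NP-hard under polynomial-time many-one reductions.

(ii) It remains NP-hard when parallel edges are not allowed.

(iii) If some polynomial-time algorithm computes `c(G)` for all graphs `G` without parallel edges
that are rigid in the plane, then every language in `NP` is decidable in polynomial time. -/
theorem result :
    NPHardP (fun I : Graph × ℕ => IsGraph I.1 ∧ Rigid I.1 ∧ c I.1 ≤ I.2) ∧
    NPHardP (fun I : Graph × ℕ => IsGraph I.1 ∧ IsSimple I.1 ∧ Rigid I.1 ∧ c I.1 ≤ I.2) ∧
    ((∃ A : List Bool → List Bool, PolyTime A ∧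
        ∀ G : Graph, IsGraph G → IsSimple G → Rigid G → A (bits G) = bits (c G)) →
      ∀ L : Set (List Bool), InNP L → InP L) := by
  refine ⟨?_, ?_, ?_⟩
  · refine HardI.toNPHardP ?_
    intro L hL
    obtain ⟨f, hf, hpr, hfL⟩ := hardPr_simple L hL
    exact ⟨f, hf, fun x => (hfL x).trans
      ⟨fun h => ⟨(hpr x).1, (hpr x).2.2, h⟩, fun h => h.2.2⟩⟩
  · refine HardI.toNPHardP ?_
    intro L hL
    obtain ⟨f, hf, hpr, hfL⟩ := hardPr_simple L hL
    exact ⟨f, hf, fun x => (hfL x).trans
      ⟨fun h => ⟨(hpr x).1, (hpr x).2.1, (hpr x).2.2, h⟩, fun h => h.2.2.2⟩⟩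
  · rintro ⟨A, hA, hc⟩
    exact collapse_fun hardPr_simple (fun I _ => Iff.rfl) hA
      (fun I hI => hc I.1 hI.1 hI.2.1 hI.2.2)

end Pool.Agent.Results.MP_e057e5_lc.NPHardCut
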